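import Pool.Agent.Helper69.LW.Basic

/-!
# MP_687a20_mp : module OD (one-dimensional inequalities)
-/

open MeasureTheory Set Filter Topology
open scoped ContDiff

namespace LeakyWire

/-- Half-line version of `hardy_slice`. -/
theorem hardy_half {ψ : ℝ → ℝ} (h : ContDiff ℝ 1 ψ) (hc : HasCompactSupport ψ) :
    ∫ t in Ioi (0 : ℝ), (ψ t - ψ 0 * gs t) ^ 2 ≤
      4 * ∫ t in Ioi (0 : ℝ), (deriv ψ t + 1 / 2 * ψ t) ^ 2 := by
  have hd : Differentiable ℝ ψ := h.differentiable (by norm_num)
  have hψc : Continuous ψ := h.continuous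
  have hdc : Continuous (deriv ψ) := h.continuous_deriv (by norm_num)
  have hdcs : HasCompactSupport (deriv ψ) := hc.deriv
  set μ : Measure ℝ := volume.restrict (Ioi (0 : ℝ)) with hμ
  have m1 : MemLp ψ 2 μ := (hψc.memLp_of_hasCompactSupport hc).mono_measure Measure.restrict_le_self
  have m2 : MemLp (deriv ψ) 2 μ :=
    (hdc.memLp_of_hasCompactSupport hdcs).mono_measure Measure.restrict_le_self
  have m3 : MemLp gs 2 μ := by
    rw [memLp_two_iff_integrable_sq gs_cont.aestronglyMeasurable]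
    have hi : Integrable (fun t => gs t ^ 2) := by
      refine gs_integrable.mono' (gs_cont.pow 2).aestronglyMeasurable (Eventually.of_forall ?_)
      intro t
      rw [Real.norm_eq_abs, abs_of_nonneg (by positivity)]
      exact gs_sq_le t
    exact hi.integrableOn
  have mf : MemLp (fun t => ψ t - ψ 0 * gs t) 2 μ := m1.sub (m3.const_mul (ψ 0))
  have mD : MemLp (fun t => deriv ψ t + 1 / 2 * ψ t) 2 μ := m2.add (m1.const_mul (1 / 2))
  have i1 : Integrable (fun t => (ψ t - ψ 0 * gs t) ^ 2) μ := mf.integrable_sq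
  have i2 : Integrable (fun t => (deriv ψ t + 1 / 2 * ψ t) ^ 2) μ := mD.integrable_sq
  have i3 : Integrable (fun t => (ψ t - ψ 0 * gs t) * (deriv ψ t + 1 / 2 * ψ t)) μ :=
    mf.integrable_mul mD
  have hder : ∀ t ∈ Ioi (0 : ℝ), HasDerivAt (fun t => (ψ t - ψ 0 * gs t) ^ 2)
      (2 * ((ψ t - ψ 0 * gs t) * (deriv ψ t + 1 / 2 * ψ t)) - (ψ t - ψ 0 * gs t) ^ 2) t := by
    intro t ht
    have hg : HasDerivAt gs (-(1 / 2) * gs t) t := by
      have h1 : HasDerivAt (fun t : ℝ => Real.exp (-t / 2)) (Real.exp (-t / 2) * (-1 / 2)) t := by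
        have h0 : HasDerivAt (fun t : ℝ => -t / 2) (-1 / 2) t :=
          ((hasDerivAt_id t).neg).div_const 2
        exact h0.exp
      have h2 : gs =ᶠ[𝓝 t] fun t : ℝ => Real.exp (-t / 2) := by
        filter_upwards [Ioi_mem_nhds ht] with x hx
        simp only [gs, abs_of_pos (mem_Ioi.mp hx)]
      have h3 := h1.congr_of_eventuallyEq h2
      have h4 : gs t = Real.exp (-t / 2) := h2.self_of_nhds
      refine h3.congr_deriv ?_
      rw [h4]
      ring
    have h1 : HasDerivAt (fun t => ψ t - ψ 0 * gs t) (deriv ψ t - ψ 0 * (-(1 / 2) * gs t)) t :=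
      (hd t).hasDerivAt.sub (hg.const_mul (ψ 0))
    have h2 := h1.pow 2
    refine h2.congr_deriv ?_
    push_cast
    ring
  have hlim : Tendsto (fun t => (ψ t - ψ 0 * gs t) ^ 2) atTop (𝓝 0) := by
    have t1 : Tendsto ψ atTop (𝓝 0) := by
      have := hc.is_zero_at_infty
      rw [cocompact_eq_atBot_atTop] at this
      exact this.mono_left le_sup_right
    have t2 : Tendsto gs atTop (𝓝 0) := by
      have h1 : Tendsto (fun t : ℝ => -|t| / 2) atTop atBot := by
        have h0 : Tendsto (fun t : ℝ => |t|) atTop atTop := tendsto_abs_atTop_atTop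
        have h2 := h0.const_mul_atTop_of_neg (show (-(1 / 2) : ℝ) < 0 by norm_num)
        refine h2.congr fun t => ?_
        ring
      exact Real.tendsto_exp_atBot.comp h1
    have t3 := (t1.sub (t2.const_mul (ψ 0))).pow 2
    simpa using t3
  have key := integral_Ioi_of_hasDerivAt_of_tendsto (a := (0 : ℝ))
    (f := fun t => (ψ t - ψ 0 * gs t) ^ 2) (m := 0)
    (((hψc.sub (continuous_const.mul gs_cont)).pow 2).continuousWithinAt) hder
    ((i3.const_mul 2).sub i1) hlim
  simp only [gs_zero, mul_one, sub_self, ne_eq, OfNat.ofNat_ne_zero, not_false_eq_true,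
    zero_pow] at key
  rw [integral_sub (i3.const_mul 2) i1] at key
  have hle : ∫ t in Ioi (0 : ℝ), 2 * ((ψ t - ψ 0 * gs t) * (deriv ψ t + 1 / 2 * ψ t)) ≤
      ∫ t in Ioi (0 : ℝ), (1 / 2 * (ψ t - ψ 0 * gs t) ^ 2 +
        2 * (deriv ψ t + 1 / 2 * ψ t) ^ 2) := by
    apply integral_mono (i3.const_mul 2) ((i1.const_mul (1 / 2)).add (i2.const_mul 2))
    intro t
    have := sq_nonneg ((ψ t - ψ 0 * gs t) - 2 * (deriv ψ t + 1 / 2 * ψ t))
    simp only [Pi.add_apply]
    nlinarith
  have e1 : ∫ t in Ioi (0 : ℝ), (1 / 2 * (ψ t - ψ 0 * gs t) ^ 2 +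
        2 * (deriv ψ t + 1 / 2 * ψ t) ^ 2) = 1 / 2 * (∫ t in Ioi (0 : ℝ), (ψ t - ψ 0 * gs t) ^ 2) +
        2 * ∫ t in Ioi (0 : ℝ), (deriv ψ t + 1 / 2 * ψ t) ^ 2 := by
    rw [← integral_const_mul, ← integral_const_mul]
    exact integral_add (i1.const_mul (1 / 2)) (i2.const_mul 2)
  rw [e1] at hle
  linarith

theorem integral_split {F : ℝ → ℝ} (hF : Integrable F) :
    ∫ t, F t = (∫ t in Ioi (0 : ℝ), F (-t)) + ∫ t in Ioi (0 : ℝ), F t := by
  have h1 := integral_add_compl (s := Iic (0 : ℝ)) measurableSet_Iic hF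
  rw [compl_Iic] at h1
  rw [← h1, integral_comp_neg_Ioi (0 : ℝ) F, neg_zero]

theorem hardy_slice {φ : ℝ → ℝ} (h : ContDiff ℝ ∞ φ) (hc : HasCompactSupport φ) :
    ∫ t, (φ t - φ 0 * gs t) ^ 2 ≤ 4 * ∫ t, (deriv φ t + Real.sign t / 2 * φ t) ^ 2 := by
  have h1 : ContDiff ℝ 1 φ := h.of_le (by exact_mod_cast le_top)
  have hφc : Continuous φ := h.continuous
  have hdc : Continuous (deriv φ) := h1.continuous_deriv (by norm_num)
  have m1 : MemLp φ 2 volume := hφc.memLp_of_hasCompactSupport hc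
  have m2 : MemLp (deriv φ) 2 volume := hdc.memLp_of_hasCompactSupport hc.deriv
  have m3 : MemLp gs 2 volume := by
    rw [memLp_two_iff_integrable_sq gs_cont.aestronglyMeasurable]
    refine gs_integrable.mono' (gs_cont.pow 2).aestronglyMeasurable (Eventually.of_forall ?_)
    intro t
    rw [Real.norm_eq_abs, abs_of_nonneg (by positivity)]
    exact gs_sq_le t
  have m4 : MemLp (fun t => Real.sign t / 2 * φ t) 2 volume := by
    refine m1.of_le (f := fun t => Real.sign t / 2 * φ t)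
      ((sign_meas.div_const 2).mul hφc.measurable).aestronglyMeasurable ?_
    refine Eventually.of_forall fun t => ?_
    rw [norm_mul, Real.norm_eq_abs, Real.norm_eq_abs, abs_div]
    have := abs_sign_le t
    have h2 : |(2 : ℝ)| = 2 := by norm_num
    rw [h2]
    nlinarith [abs_nonneg (φ t), abs_nonneg (Real.sign t)]
  have i1 : Integrable (fun t => (φ t - φ 0 * gs t) ^ 2) :=
    (m1.sub (m3.const_mul (φ 0))).integrable_sq
  have i2 : Integrable (fun t => (deriv φ t + Real.sign t / 2 * φ t) ^ 2) :=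
    (m2.add m4).integrable_sq
  rw [integral_split i1, integral_split i2, mul_add]
  apply add_le_add
  · have hneg : ContDiff ℝ 1 (fun t => φ (-t)) := h1.comp contDiff_neg
    have hcn : HasCompactSupport (fun t => φ (-t)) :=
      hc.comp_homeomorph (Homeomorph.neg ℝ)
    have := hardy_half hneg hcn
    simp only [neg_zero] at this
    refine le_trans (le_of_eq ?_) (this.trans (le_of_eq ?_))
    · refine setIntegral_congr_fun measurableSet_Ioi fun t _ => ?_
      beta_reduce
      rw [gs_neg]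
    · congr 1
      refine setIntegral_congr_fun measurableSet_Ioi fun t ht => ?_
      have h5 : Real.sign (-t) = -1 := by
        rw [Real.sign_neg, Real.sign_of_pos (mem_Ioi.mp ht)]
      beta_reduce
      rw [h5, deriv_comp_neg]
      ring
  · have := hardy_half h1 hc
    refine this.trans (le_of_eq ?_)
    congr 1
    refine setIntegral_congr_fun measurableSet_Ioi fun t ht => ?_
    have h5 : Real.sign t = 1 := Real.sign_of_pos (mem_Ioi.mp ht)
    beta_reduce
    rw [h5]

theorem poincare_slice {φ : ℝ → ℝ} (h : ContDiff ℝ ∞ φ) (hc : HasCompactSupport φ) :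
    ∫ t, (φ t - (1 / 2 * ∫ r, φ r * gs r) * gs t) ^ 2 ≤
      4 * ∫ t, (deriv φ t + Real.sign t / 2 * φ t) ^ 2 := by
  refine le_trans ?_ (hardy_slice h hc)
  have hφc : Continuous φ := h.continuous
  have m1 : MemLp φ 2 volume := hφc.memLp_of_hasCompactSupport hc
  have m3 : MemLp gs 2 volume := by
    rw [memLp_two_iff_integrable_sq gs_cont.aestronglyMeasurable]
    refine gs_integrable.mono' (gs_cont.pow 2).aestronglyMeasurable (Eventually.of_forall ?_)
    intro t
    rw [Real.norm_eq_abs, abs_of_nonneg (by positivity)]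
    exact gs_sq_le t
  have i1 : Integrable (fun t => φ t ^ 2) := m1.integrable_sq
  have i2 : Integrable (fun t => gs t ^ 2) := m3.integrable_sq
  have i3 : Integrable (fun t => φ t * gs t) := m1.integrable_mul m3
  set M := ∫ r, φ r * gs r with hM
  have hexp : ∀ a : ℝ, ∫ t, (φ t - a * gs t) ^ 2 = (∫ t, φ t ^ 2) - 2 * a * M + a ^ 2 * 2 := by
    intro a
    have h1 : (fun t => (φ t - a * gs t) ^ 2) =
        fun t => (φ t ^ 2 - 2 * a * (φ t * gs t)) + a ^ 2 * gs t ^ 2 := by
      funext t; ring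
    have h2 : ∫ t, ((φ t ^ 2 - 2 * a * (φ t * gs t)) + a ^ 2 * gs t ^ 2) =
        (∫ t, (φ t ^ 2 - 2 * a * (φ t * gs t))) + ∫ t, a ^ 2 * gs t ^ 2 :=
      integral_add (i1.sub (i3.const_mul (2 * a))) (i2.const_mul (a ^ 2))
    have h3 : ∫ t, (φ t ^ 2 - 2 * a * (φ t * gs t)) =
        (∫ t, φ t ^ 2) - ∫ t, 2 * a * (φ t * gs t) :=
      integral_sub i1 (i3.const_mul (2 * a))
    rw [h1, h2, h3, integral_const_mul, integral_const_mul, gs_sq_integral]
  rw [hexp, hexp]
  nlinarith [sq_nonneg (φ 0 - 1 / 2 * M)]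

theorem oned {g : ℝ → ℝ} (hg : ContDiff ℝ 1 g) (hc : HasCompactSupport g) {ε : ℝ} (hε : 0 < ε) :
    ε * g 0 ^ 2 ≤
      (∫ s in Ioi (0 : ℝ), deriv g s ^ 2) + ε ^ 2 * ∫ s in Ioi (0 : ℝ), g s ^ 2 := by
  have hd : Differentiable ℝ g := hg.differentiable (by norm_num)
  have hgc : Continuous g := hg.continuous
  have hdc : Continuous (deriv g) := hg.continuous_deriv (by norm_num)
  have m1 : MemLp g 2 (volume.restrict (Ioi (0 : ℝ))) :=
    (hgc.memLp_of_hasCompactSupport hc).mono_measure Measure.restrict_le_self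
  have m2 : MemLp (deriv g) 2 (volume.restrict (Ioi (0 : ℝ))) :=
    (hdc.memLp_of_hasCompactSupport hc.deriv).mono_measure Measure.restrict_le_self
  have i1 := m1.integrable_sq
  have i2 := m2.integrable_sq
  have i3 : Integrable (fun t => g t * deriv g t) (volume.restrict (Ioi (0 : ℝ))) :=
    m1.integrable_mul m2
  have hder : ∀ t ∈ Ioi (0 : ℝ), HasDerivAt (fun t => g t ^ 2) (2 * (g t * deriv g t)) t := by
    intro t _
    have h2 := (hd t).hasDerivAt.pow 2
    refine h2.congr_deriv ?_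
    push_cast
    ring
  have hlim : Tendsto (fun t => g t ^ 2) atTop (𝓝 0) := by
    have t1 : Tendsto g atTop (𝓝 0) := by
      have := hc.is_zero_at_infty
      rw [cocompact_eq_atBot_atTop] at this
      exact this.mono_left le_sup_right
    have t3 := t1.pow 2
    simpa using t3
  have key := integral_Ioi_of_hasDerivAt_of_tendsto (a := (0 : ℝ))
    (f := fun t => g t ^ 2) (m := 0) ((hgc.pow 2).continuousWithinAt) hder
    (i3.const_mul 2) hlim
  have hle : ∫ t in Ioi (0 : ℝ), (-(ε * (2 * (g t * deriv g t)))) ≤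
      ∫ t in Ioi (0 : ℝ), (deriv g t ^ 2 + ε ^ 2 * g t ^ 2) := by
    apply integral_mono ((i3.const_mul 2).const_mul ε).neg (i2.add (i1.const_mul (ε ^ 2)))
    intro t
    have := sq_nonneg (deriv g t + ε * g t)
    simp only [Pi.add_apply, Pi.neg_apply]
    nlinarith
  have e1 : ∫ t in Ioi (0 : ℝ), (deriv g t ^ 2 + ε ^ 2 * g t ^ 2) =
      (∫ s in Ioi (0 : ℝ), deriv g s ^ 2) + ε ^ 2 * ∫ s in Ioi (0 : ℝ), g s ^ 2 := by
    rw [← integral_const_mul]
    exact integral_add i2 (i1.const_mul (ε ^ 2))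
  rw [e1, integral_neg, integral_const_mul, key] at hle
  linarith

end LeakyWire
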